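import Pool.Agent.T9h72.KU.Spec

set_option autoImplicit false

namespace Pool.Agent.T9h71.KU

open Set Pool.Agent.R190.KR Pool.Agent.T9h72.KU

/-- the function of the job I1 -/
noncomputable def Lam (x : ℝ) : ℝ :=
  Real.log (A x) - Real.log (A (1 - x)) - 1 + A (1 - x) / A x -
    (1 - x) * (A x / A (1 - x) + A (1 - x) / A x - 2)

theorem hasDerivAt_Lam {x : ℝ} (h0 : 0 < x) (h1 : x < 1) :
    HasDerivAt Lam ((A x - A (1 - x)) * ((1 - x) * x * A x * A (1 - x) * (A x - A (1 - x)) -
      (((1 - x) * A x) ^ 2 - (x * A (1 - x)) ^ 2)) /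
        (A x ^ 2 * A (1 - x) ^ 2 * (1 - x) * x)) x := by
  have hA : 0 < A x := A_pos h0 h1
  have hB : 0 < A (1 - x) := A_pos (by linarith) (by linarith)
  have dA := hasDerivAt_A h1
  have dB := hasDerivAt_A' h0
  have h := ((((dA.log hA.ne').sub (dB.log hB.ne')).sub_const 1).add (dB.div dA hA.ne')).sub
    (((hasDerivAt_id x).const_sub 1).mul
      (((dA.div dB hB.ne').add (dB.div dA hA.ne')).sub_const 2))
  refine h.congr_deriv ?_
  have hu : (1 - x) ≠ 0 := by
    have : 0 < 1 - x := by linarith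
    exact this.ne'
  have hx : x ≠ 0 := h0.ne'
  simp only [Pi.add_apply, Pi.div_apply, id_eq]
  generalize A (1 - x) = b at *
  generalize A x = a at *
  field_simp
  ring

theorem i1 : S_G0 → S_I1 := by
  intro hG x hx
  have hmono : MonotoneOn Lam (Ico (1 / 2) 1) := by
    apply monotoneOn_of_deriv_nonneg (convex_Ico _ _)
    · intro y hy
      exact (hasDerivAt_Lam (by linarith [hy.1]) hy.2).continuousAt.continuousWithinAt
    · intro y hy
      rw [interior_Ico] at hy
      exact (hasDerivAt_Lam (by linarith [hy.1]) hy.2).differentiableAt.differentiableWithinAt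
    · intro y hy
      rw [interior_Ico] at hy
      have hy0 : 0 < y := by linarith [hy.1]
      rw [(hasDerivAt_Lam hy0 hy.2).deriv]
      have hA : 0 < A y := A_pos hy0 hy.2
      have hB : 0 < A (1 - y) := A_pos (by linarith [hy.2]) (by linarith)
      have hAB : A (1 - y) ≤ A y := A_le_of hy.1.le hy.2
      have hu : 0 < 1 - y := by linarith [hy.2]
      have h1 := hG y ⟨hy.1, hy.2⟩
      refine div_nonneg (mul_nonneg (by linarith) (by linarith)) ?_
      positivity
  have hhalf : Lam (1 / 2) = 0 := by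
    unfold Lam
    have h1 : (1 : ℝ) - 1 / 2 = 1 / 2 := by norm_num
    have hA : 0 < A (1 / 2) := A_pos (by norm_num) (by norm_num)
    rw [h1, div_self hA.ne']
    ring
  have h2 : Lam (1 / 2) ≤ Lam x :=
    hmono ⟨le_rfl, by norm_num⟩ ⟨hx.1.le, hx.2⟩ hx.1.le
  rw [hhalf] at h2
  have hx0 : 0 < x := by linarith [hx.1]
  have hA : 0 < A x := A_pos hx0 hx.2
  have hB : 0 < A (1 - x) := A_pos (by linarith [hx.2]) (by linarith)
  have h3 : (1 - x) * (A x - A (1 - x)) ^ 2 / (A x * A (1 - x)) =
      (1 - x) * (A x / A (1 - x) + A (1 - x) / A x - 2) := by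
    field_simp
    ring
  rw [h3, Real.log_div hA.ne' hB.ne']
  unfold Lam at h2
  linarith

end Pool.Agent.T9h71.KU

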