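import Pool.Agent.T9h71.KU.Unif

set_option autoImplicit false

namespace Pool.Agent.T9h71.KU

open MeasureTheory ProbabilityTheory Set Filter Topology Pool.Agent.R190.KR Pool.Agent.T9h72.KU
open scoped ENNReal

/-- the value of the uniform law -/
theorem unif_mem : S_VAL → ∀ n m : ℕ, 1 ≤ m →
    K n m * N1 n m * Real.sqrt 12 ∈ stdMeansU (m + 1) n := by
  intro hV n m hm
  obtain ⟨B, hB⟩ := exists_bound_S n m hm
  have hms := measurable_S n m
  have hl : ∀ x ∈ Icc (0 : ℝ) 1, |x - 1 / 2| ≤ 1 := by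
    intro x hx
    rw [abs_le]
    constructor <;> linarith [hx.1, hx.2]
  have hg : GoodQ (fun x : ℝ => x - 1 / 2) (fun _ => 1) 1 (1 / 2) :=
    { meas := by fun_prop
      bdd := fun x hx => hl x ⟨hx.1.le, hx.2.le⟩
      odd := fun x _ => by ring
      cont := by fun_prop
      der := fun x _ _ => (hasDerivAt_id x).sub_const _
      dpos := fun _ _ => zero_lt_one
      dmono := monotoneOn_const }
  have h3 := hV n m hm _ _ _ _ hg
  have e1 : ∫ x in Ioo (0 : ℝ) 1, (x - 1 / 2) * S n m x = 2 * N1 n m := by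
    rw [even_integral (q := fun x => (x - 1 / 2) * S n m x)
      (fun x _ => by rw [S_one_sub]; ring)]
    · unfold N1
      congr 2
      funext x
      ring
    · intro a b ha hab hb
      exact ii_of_bound (q := fun x => (x - 1 / 2) * S n m x) (by fun_prop) (B := 1 * B)
        (fun x hx => by
          rw [abs_mul]
          exact mul_le_mul (hl x hx) (hB x hx) (abs_nonneg _) zero_le_one) a b ha hab hb
  have e2 : ∫ x in Ioo (0 : ℝ) 1, (x - 1 / 2) ^ 2 = 1 / 12 := by
    have := int_full 1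
    simpa using this
  rw [e1, e2] at h3
  have e3 : K n m / 2 * (2 * N1 n m) / Real.sqrt (1 / 12) = K n m * N1 n m * Real.sqrt 12 := by
    rw [Real.sqrt_div (by norm_num), Real.sqrt_one]
    field_simp
  rwa [e3] at h3

/-- the uniform law is extremal -/
theorem unif_greatest : S_OPT → S_PAT → S_VAL → ∀ n m : ℕ, 1 ≤ n → 1 ≤ m → 0 < N1 n m →
    3 * N1 n m ≤ N0 n m →
    IsGreatest (stdMeansU (m + 1) n) (K n m * N1 n m * Real.sqrt 12) :=
  fun hO hP hV n m hn hm h1 h2 => ⟨unif_mem hV n m hm, (unif hO hP hV n m hn hm h1 h2).1⟩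


end Pool.Agent.T9h71.KU
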