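import Pool.Agent.T9h72.KU.Spec

set_option autoImplicit false

namespace Pool.Agent.T9h71.KU

open MeasureTheory ProbabilityTheory Set Filter Topology Pool.Agent.R190.KR Pool.Agent.T9h72.KU
open scoped ENNReal

theorem peak_of_N1 {n m : ℕ} (hn : 1 ≤ n) (hm : 1 ≤ m) (h : 0 < N1 n m) :
    ∃ c : ℝ, Peak n m c := by
  have hpos : ∃ x ∈ Icc (1 / 2 : ℝ) 1, 0 < S n m x := by
    by_contra hcon
    push Not at hcon
    have h1 : N1 n m ≤ ∫ x in (1 / 2 : ℝ)..1, (0 : ℝ) := by
      unfold N1
      refine intervalIntegral.integral_mono_on (by norm_num) ?_ intervalIntegrable_const ?_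
      · apply ContinuousOn.intervalIntegrable
        rw [uIcc_of_le (by norm_num)]
        exact ((continuousOn_S n m hm).mono (Icc_subset_Icc (by norm_num) le_rfl)).mul
          (by fun_prop)
      · intro x hx
        exact mul_nonpos_of_nonpos_of_nonneg (hcon x hx) (by linarith [hx.1])
    simp at h1
    linarith
  obtain ⟨c, hc, h1, h2, h3, h4⟩ := exists_peak n m hn hm hpos
  exact ⟨c, hc, h1, h2, h3, h4⟩

theorem int_sq_half : ∫ x in (1 / 2 : ℝ)..1, (x - 1 / 2) * (x - 1 / 2) = 1 / 24 := by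
  have h : ∀ x ∈ uIcc (1 / 2 : ℝ) 1,
      HasDerivAt (fun x : ℝ => (x - 1 / 2) ^ 3 / 3) ((x - 1 / 2) * (x - 1 / 2)) x := by
    intro x _
    have := (((hasDerivAt_id x).sub_const (1 / 2)).pow 3).div_const 3
    refine this.congr_deriv ?_
    simp
    ring
  rw [intervalIntegral.integral_eq_sub_of_hasDerivAt h
    (Continuous.intervalIntegrable (by fun_prop) _ _)]
  norm_num

theorem int_lin_half : ∫ x in (1 / 2 : ℝ)..1, (x - 1 / 2) = 1 / 8 := by
  have h : ∀ x ∈ uIcc (1 / 2 : ℝ) 1,
      HasDerivAt (fun x : ℝ => (x - 1 / 2) ^ 2 / 2) (x - 1 / 2) x := by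
    intro x _
    have := (((hasDerivAt_id x).sub_const (1 / 2)).pow 2).div_const 2
    refine this.congr_deriv ?_
    simp
  rw [intervalIntegral.integral_eq_sub_of_hasDerivAt h
    (Continuous.intervalIntegrable (by fun_prop) _ _)]
  norm_num

theorem int_full (a : ℝ) : ∫ x in Ioo (0 : ℝ) 1, (a * (x - 1 / 2)) ^ 2 = a ^ 2 / 12 := by
  rw [even_integral (q := fun x => (a * (x - 1 / 2)) ^ 2) (fun x _ => by ring)
    (fun b c _ _ _ => Continuous.intervalIntegrable (by fun_prop) _ _)]
  have h : (∫ x in (1 / 2 : ℝ)..1, (a * (x - 1 / 2)) ^ 2) =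
      ∫ x in (1 / 2 : ℝ)..1, a ^ 2 * ((x - 1 / 2) * (x - 1 / 2)) := by
    congr 1
    funext x
    ring
  rw [h, intervalIntegral.integral_const_mul, int_sq_half]
  ring

theorem unif : S_OPT → S_PAT → S_VAL → S_UNIF := by
  intro hO hP hV n m hn hm hN hN3
  obtain ⟨c, hc⟩ := peak_of_N1 hn hm hN
  obtain ⟨B, hB⟩ := exists_bound_S n m hm
  have hK := K_pos n m
  have hms := measurable_S n m
  obtain ⟨c1, c2, h1, h12, h2, hp1, hp2, hp3⟩ := hP n m hn hm c hc (1 / 2)
    ⟨le_rfl, hc.mem.1.le⟩ (24 * N1 n m) (by linarith)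
  have hl : ∀ x ∈ Icc (0 : ℝ) 1, |x - 1 / 2| ≤ 1 := by
    intro x hx
    rw [abs_le]
    constructor <;> linarith [hx.1, hx.2]
  have hiS : IntervalIntegrable (S n m) volume (1 / 2) 1 :=
    intervalIntegrable_S n m hm (by norm_num) (by norm_num) zero_le_one le_rfl
  have hiS1 : IntervalIntegrable (fun x => S n m x * (x - 1 / 2)) volume (1 / 2) 1 := by
    apply ContinuousOn.intervalIntegrable
    rw [uIcc_of_le (by norm_num)]
    exact ((continuousOn_S n m hm).mono (Icc_subset_Icc (by norm_num) le_rfl)).mul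
      (by fun_prop)
  refine IsGreatest.isLUB ⟨?_, ?_⟩
  · have hg : GoodQ (fun x : ℝ => x - 1 / 2) (fun _ => 1) 1 (1 / 2) :=
      { meas := by fun_prop
        bdd := fun x hx => hl x ⟨hx.1.le, hx.2.le⟩
        odd := fun x _ => by ring
        cont := by fun_prop
        der := fun x _ _ => (hasDerivAt_id x).sub_const _
        dpos := fun _ _ => zero_lt_one
        dmono := monotoneOn_const }
    have h3 := hV n m hm _ _ _ _ hg
    have e1 : ∫ x in Ioo (0 : ℝ) 1, (x - 1 / 2) * S n m x = 2 * N1 n m := by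
      rw [even_integral (q := fun x => (x - 1 / 2) * S n m x)
        (fun x _ => by rw [S_one_sub]; ring)]
      · unfold N1
        congr 2
        funext x
        ring
      · intro a b ha hab hb
        exact ii_of_bound (q := fun x => (x - 1 / 2) * S n m x) (by fun_prop) (B := 1 * B)
          (fun x hx => by
            rw [abs_mul]
            exact mul_le_mul (hl x hx) (hB x hx) (abs_nonneg _) zero_le_one) a b ha hab hb
    have e2 : ∫ x in Ioo (0 : ℝ) 1, (x - 1 / 2) ^ 2 = 1 / 12 := by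
      have := int_full 1
      simpa using this
    rw [e1, e2] at h3
    have e3 : K n m / 2 * (2 * N1 n m) / Real.sqrt (1 / 12) = K n m * N1 n m * Real.sqrt 12 := by
      rw [Real.sqrt_div (by norm_num), Real.sqrt_one]
      field_simp
    rwa [e3] at h3
  · rintro r ⟨μ, hμ, rfl⟩
    rw [recMean_sub n m hm hμ.sym, div_le_iff₀ hμ.sym.pos]
    have hφm : Measurable fun x => S n m x - 24 * N1 n m * (x - 1 / 2) := by fun_prop
    have hBd : ∀ x ∈ Icc (0 : ℝ) 1, |S n m x - 24 * N1 n m * (x - 1 / 2)| ≤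
        B + 24 * N1 n m * 1 := by
      intro x hx
      refine (abs_sub _ _).trans (add_le_add (hB x hx) ?_)
      rw [abs_mul, abs_of_pos (by linarith : 0 < 24 * N1 n m)]
      exact mul_le_mul_of_nonneg_left (hl x hx) (by linarith)
    have h3 := hO μ hμ (fun x => S n m x - 24 * N1 n m * (x - 1 / 2)) hφm _ hBd
      (fun x _ => by rw [S_one_sub]; ring) c1 c2 h1 h12 h2
      (fun x hx => by have := hp1 x hx; rw [S_half] at this; linarith)
      (fun x hx => by have := hp2 x hx; rw [S_half] at this; linarith)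
      (fun x hx => by have := hp3 x hx; rw [S_half] at this; linarith)
      (Or.inr (by
        rw [intervalIntegral.integral_sub hiS
          (Continuous.intervalIntegrable (by fun_prop) _ _),
          intervalIntegral.integral_const_mul, int_lin_half]
        unfold N0 at hN3
        linarith))
      (by
        have e : (∫ x in (1 / 2 : ℝ)..1, (S n m x - 24 * N1 n m * (x - 1 / 2)) * (x - 1 / 2)) =
            ∫ x in (1 / 2 : ℝ)..1, (S n m x * (x - 1 / 2) -
              24 * N1 n m * ((x - 1 / 2) * (x - 1 / 2))) := by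
          congr 1
          funext x
          ring
        rw [e, intervalIntegral.integral_sub hiS1
          (Continuous.intervalIntegrable (by fun_prop) _ _),
          intervalIntegral.integral_const_mul, int_sq_half]
        have : (∫ x in (1 / 2 : ℝ)..1, S n m x * (x - 1 / 2)) = N1 n m := rfl
        rw [this]
        linarith)
    have hlm : Measurable fun x : ℝ => 24 * N1 n m * (x - 1 / 2) := by fun_prop
    have hlB : ∀ x ∈ Icc (0 : ℝ) 1, |24 * N1 n m * (x - 1 / 2)| ≤ 24 * N1 n m * 1 := by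
      intro x hx
      rw [abs_mul, abs_of_pos (by linarith : 0 < 24 * N1 n m)]
      exact mul_le_mul_of_nonneg_left (hl x hx) (by linarith)
    have h4 := hμ.sym.cs hlm hlB (V := (24 * N1 n m) ^ 2 / 12) (by positivity) (int_full _)
    have h5 : ∫ t, (t - mean μ) * (S n m (cdf μ t) - 24 * N1 n m * (cdf μ t - 1 / 2)) ∂μ =
        (∫ t, (t - mean μ) * S n m (cdf μ t) ∂μ) -
          ∫ t, (t - mean μ) * (24 * N1 n m * (cdf μ t - 1 / 2)) ∂μ := by
      rw [← integral_sub (hμ.sym.int_mul hms hB) (hμ.sym.int_mul hlm hlB)]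
      congr 1
      funext t
      ring
    rw [h5] at h3
    have h6 : Real.sqrt ((24 * N1 n m) ^ 2 / 12) = 2 * N1 n m * Real.sqrt 12 := by
      have : (24 * N1 n m) ^ 2 / 12 = (2 * N1 n m) ^ 2 * 12 := by ring
      rw [this, Real.sqrt_mul (sq_nonneg _), Real.sqrt_sq (by linarith)]
    rw [h6] at h4
    calc K n m / 2 * ∫ t, (t - mean μ) * S n m (cdf μ t) ∂μ
        ≤ K n m / 2 * (sd μ * (2 * N1 n m * Real.sqrt 12)) :=
          mul_le_mul_of_nonneg_left (by linarith) (by positivity)
      _ = _ := by ring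

end Pool.Agent.T9h71.KU

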